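import Pool.Agent.U976.TF.Defs
import Pool.Agent.U976.LT.A

/-!
# Negative extremal rays on toric bundles are vertical
-/

set_option autoImplicit false

namespace Pool.Agent.U976.TF

open Pool.Agent.U976.LT Filter Topology

variable {ι : Type*} [Fintype ι] {n : ℕ} {u : ι → Fin n → ℤ} {S : Set (Set ι)}
variable {W : Type*} [NormedAddCommGroup W] [NormedSpace ℝ W] {C : Set W} {κ : W} {N : Fin n → W}
  {b : ι → ℝ} {α : W}

theorem map_sum_smul (ψ : W →L[ℝ] ℝ) (q : Fin n → ℝ) (α : W) :
    ψ (α + ∑ l, q l • N l) = ψ α + ∑ l, q l * ψ (N l) := by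
  simp [map_add, map_sum, map_smul]

/-- The degree does not change if the class is written in another way. -/
theorem deg_shift {R : (ι → ℝ) × (W →L[ℝ] ℝ)}
    (hR : ∀ l, ∑ i, R.1 i * (u i l : ℝ) + R.2 (N l) = 0) (d : ι → ℝ) (α : W) (q : Fin n → ℝ) :
    deg R (fun i => d i + pr u q i) (α + ∑ l, q l • N l) = deg R d α := by
  have h1 : ∑ i, R.1 i * pr u q i = ∑ l, q l * (∑ i, R.1 i * (u i l : ℝ)) := by
    simp only [pr, Finset.mul_sum]
    rw [Finset.sum_comm]
    exact Finset.sum_congr rfl fun i _ => Finset.sum_congr rfl fun l _ => by ring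
  have h2 : ∑ l, q l * (∑ i, R.1 i * (u i l : ℝ)) + ∑ l, q l * R.2 (N l) = 0 := by
    rw [← Finset.sum_add_distrib]
    exact Finset.sum_eq_zero fun l _ => by rw [← mul_add, hR l, mul_zero]
  simp only [deg, mul_add, Finset.sum_add_distrib, map_sum_smul]
  linarith

/-- The class of the difference of two representations of a vector. -/
theorem vert_mem (hS : IsCompleteFan u S) {w : Fin n → ℝ} {a a' : ι → ℝ} (ha : IsRep u S w a)
    (h0 : ∀ i, 0 ≤ a' i) (h1 : ∀ i, a' i ≠ 0 → {i} ∈ S)
    (h2 : ∀ l, ∑ i, a' i * (u i l : ℝ) = w l) :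
    ((fun i => a' i - a i, 0) : (ι → ℝ) × (W →L[ℝ] ℝ)) ∈ NA u S C N := by
  have haS : ∀ i, a i ≠ 0 → {i} ∈ S := fun i hi =>
    hS.face _ ha.2.1 _ (Set.singleton_subset_iff.2 hi)
  refine ⟨fun l => ?_, fun i hi => ?_, fun d δ hd => ?_⟩
  · simp only [sub_mul, Finset.sum_sub_distrib, h2, ha.2.2, zero_apply, sub_self,
      add_zero]
  · have e1 : a' i = 0 := by
      by_contra h
      exact hi (h1 i h)
    have e2 : a i = 0 := by
      by_contra h
      exact hi (haS i h)
    simp [e1, e2]
  · obtain ⟨q, hq1, hq2, -⟩ := hd _ ha.2.1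
    simp only [deg, zero_apply, add_zero, sub_mul, Finset.sum_sub_distrib]
    have e1 : ∑ i, a i * d i + ∑ l, q l * w l = 0 := by
      rw [rep_pair ha.2.2, ← Finset.sum_add_distrib]
      refine Finset.sum_eq_zero fun i _ => ?_
      rw [← mul_add]
      by_cases hi : a i = 0
      · rw [hi, zero_mul]
      · rw [hq1 i hi, mul_zero]
    have e2 : 0 ≤ ∑ i, a' i * d i + ∑ l, q l * w l := by
      rw [rep_pair h2, ← Finset.sum_add_distrib]
      refine Finset.sum_nonneg fun i _ => ?_
      rw [← mul_add]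
      by_cases hi : a' i = 0
      · rw [hi, zero_mul]
      · exact mul_nonneg (h0 i) (hq2 i (h1 i hi))
    linarith

/-- The class of the curves in the section of the cone which contains the vector of the degrees of the
`N l`. -/
theorem horiz_mem (hS : IsCompleteFan u S) {ψ : W →L[ℝ] ℝ} (hψ : ∀ x ∈ C, 0 ≤ ψ x) {a : ι → ℝ}
    (ha : IsRep u S (fun l => ψ (N l)) a) :
    ((fun i => - a i, ψ) : (ι → ℝ) × (W →L[ℝ] ℝ)) ∈ NA u S C N := by
  have haS : ∀ i, a i ≠ 0 → {i} ∈ S := fun i hi =>
    hS.face _ ha.2.1 _ (Set.singleton_subset_iff.2 hi)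
  refine ⟨fun l => ?_, fun i hi => ?_, fun d δ hd => ?_⟩
  · simp only [neg_mul, Finset.sum_neg_distrib, ha.2.2]
    ring
  · have e2 : a i = 0 := by
      by_contra h
      exact hi (haS i h)
    simp [e2]
  · obtain ⟨q, hq1, hq2, hq3⟩ := hd _ ha.2.1
    have e1 : ∑ i, a i * d i + ∑ l, q l * ψ (N l) = 0 := by
      rw [rep_pair (w := fun l => ψ (N l)) ha.2.2, ← Finset.sum_add_distrib]
      refine Finset.sum_eq_zero fun i _ => ?_
      rw [← mul_add]
      by_cases hi : a i = 0
      · rw [hi, zero_mul]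
      · rw [hq1 i hi, mul_zero]
    have e2 := hψ _ hq3
    rw [map_sum_smul] at e2
    simp only [deg, neg_mul, Finset.sum_neg_distrib]
    linarith

/-- A supporting linear form at a point of the cone which is not in its interior. -/
theorem exists_form (hadd : ∀ x ∈ C, ∀ y ∈ C, x + y ∈ C) (hsmul : ∀ t : ℝ, 0 ≤ t → ∀ x ∈ C, t • x ∈ C)
    (hint : (interior C).Nonempty) {x : W} (hx : x ∈ C) (hxi : x ∉ interior C) :
    ∃ ψ : W →L[ℝ] ℝ, ψ ≠ 0 ∧ (∀ y ∈ C, 0 ≤ ψ y) ∧ ψ x = 0 := by
  have hconv : Convex ℝ C := by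
    intro y hy z hz s t hs ht _
    exact hadd _ (hsmul s hs y hy) _ (hsmul t ht z hz)
  obtain ⟨f, hf⟩ := geometric_hahn_banach_open_point hconv.interior isOpen_interior hxi
  obtain ⟨e, he⟩ := hint
  -- sums of an element of the cone and an interior point are interior points
  have hsum : ∀ y ∈ C, ∀ t : ℝ, 0 < t → y + t • e ∈ interior C := by
    intro y hy t ht
    rw [mem_interior]
    refine ⟨(fun z => y + t • z) '' interior C, ?_, ?_, ⟨e, he, rfl⟩⟩
    · rintro _ ⟨z, hz, rfl⟩
      exact hadd _ hy _ (hsmul t ht.le _ (interior_subset hz))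
    · have h1 : (fun z : W => y + t • z) = ((Homeomorph.smulOfNeZero t ht.ne').trans
          (Homeomorph.addLeft y) : W ≃ₜ W) := by
        funext z
        simp
      rw [h1]
      exact (Homeomorph.isOpenMap _) _ isOpen_interior
  have hlt : ∀ y ∈ C, ∀ t : ℝ, 0 < t → f y + t * f e < f x := by
    intro y hy t ht
    have := hf _ (hsum y hy t ht)
    simpa using this
  have h0 : (0 : W) ∈ C := by simpa using hsmul 0 le_rfl x hx
  -- the values
  have hcone : ∀ y ∈ C, f y ≤ 0 := by
    intro y hy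
    by_contra hcon
    push Not at hcon
    obtain ⟨k, hk⟩ := exists_nat_gt ((f x - f e) / f y)
    have h1 := hlt _ (hsmul (k : ℝ) (Nat.cast_nonneg k) y hy) 1 one_pos
    rw [map_smul, smul_eq_mul, one_mul] at h1
    rw [div_lt_iff₀ hcon] at hk
    linarith
  have hx0 : 0 ≤ f x := by
    by_contra hcon
    push Not at hcon
    have h1 : ∀ t : ℝ, 0 < t → t * f e < f x := by
      intro t ht
      have := hlt 0 h0 t ht
      simpa using this
    have he0 : f e < 0 := by
      have := h1 1 one_pos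
      linarith
    have h2 := h1 (f x / f e / 2) (by
      have : 0 < f x / f e := div_pos_of_neg_of_neg hcon he0
      linarith)
    have hne : f e ≠ 0 := he0.ne
    have h3 : f x / f e / 2 * f e = f x / 2 := by
      field_simp
    rw [h3] at h2
    linarith
  have hxe : f x = 0 := le_antisymm (hcone x hx) hx0
  refine ⟨-f, ?_, fun y hy => ?_, by simp [hxe]⟩
  · intro h
    have h1 : f = 0 := by
      have := congrArg Neg.neg h
      simpa using this
    have h2 := hlt 0 h0 1 one_pos
    rw [h1] at h2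
    simp at h2
  · have := hcone y hy
    simp only [neg_apply]
    linarith

end Pool.Agent.U976.TF
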