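import Pool.Agent.U976.TF.A
import Mathlib.LinearAlgebra.Basis.VectorSpace

/-!
# Negative extremal rays on toric bundles are vertical: the proof
-/

set_option autoImplicit false

namespace Pool.Agent.U976.TF

open Pool.Agent.U976.LT Filter Topology

variable {ι : Type*} [Fintype ι] {n : ℕ} {u : ι → Fin n → ℤ} {S : Set (Set ι)}
variable {W : Type*} [NormedAddCommGroup W] [NormedSpace ℝ W] {C : Set W} {κ : W} {N : Fin n → W}
  {b : ι → ℝ} {α : W}

/-- The generators of the rays of a cone are linearly independent, so a linear form has prescribed values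
at them. -/
theorem exists_vertex (hS : IsCompleteFan u S) {σ : Set ι} (hσ : σ ∈ S) (d : ι → ℝ) :
    ∃ p : Fin n → ℝ, ∀ i ∈ σ, d i + pr u p i = 0 := by
  classical
  let v : σ → (Fin n → ℝ) := fun i l => (u i l : ℝ)
  have hli : LinearIndependent ℝ v := by
    rw [Fintype.linearIndependent_iff]
    intro g hg i
    by_contra hgi
    let M : ℝ := ∑ i : σ, |g i| + 1
    have hM : ∀ i : σ, 0 < M + g i := by
      intro i
      have h1 : |g i| ≤ ∑ i : σ, |g i| :=
        Finset.single_le_sum (f := fun i : σ => |g i|) (fun i _ => abs_nonneg _) (Finset.mem_univ i)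
      have h2 := neg_abs_le (g i)
      simp only [M]
      linarith
    have hM0 : 0 < M := by
      have : 0 ≤ ∑ i : σ, |g i| := Finset.sum_nonneg fun i _ => abs_nonneg _
      simp only [M]
      linarith
    let a : ι → ℝ := fun i => if i ∈ σ then M else 0
    let a' : ι → ℝ := fun i => if hi : i ∈ σ then M + g ⟨i, hi⟩ else 0
    have hsum : ∀ f : ι → ℝ, (∀ i, i ∉ σ → f i = 0) → ∑ i, f i = ∑ i : σ, f i := by
      intro f hf
      have e1 : ∑ i ∈ Finset.univ.filter (· ∈ σ), f i = ∑ i : σ, f i :=
        Finset.sum_subtype (Finset.univ.filter (· ∈ σ)) (by simp) f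
      have e2 := Finset.sum_filter_of_ne (s := Finset.univ) (p := (· ∈ σ)) (f := f)
        (fun x _ hx => by
          by_contra h
          exact hx (hf x h))
      rw [← e2, e1]
    have h1 : IsRep u S (fun l => ∑ i, a i * (u i l : ℝ)) a := by
      refine ⟨fun i => ?_, hS.face _ hσ _ fun i hi => ?_, fun l => rfl⟩
      · simp only [a]
        split_ifs
        · exact hM0.le
        · exact le_rfl
      · by_contra h
        exact hi (by simp [a, h])
    have h2 : IsRep u S (fun l => ∑ i, a i * (u i l : ℝ)) a' := by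
      refine ⟨fun i => ?_, hS.face _ hσ _ fun i hi => ?_, fun l => ?_⟩
      · simp only [a']
        split_ifs with h
        · exact (hM _).le
        · exact le_rfl
      · by_contra h
        exact hi (by simp [a', h])
      · show ∑ i, a' i * (u i l : ℝ) = ∑ i, a i * (u i l : ℝ)
        have e1 := congrFun hg l
        simp only [Finset.sum_apply, Pi.smul_apply, smul_eq_mul, Pi.zero_apply, v] at e1
        rw [hsum (fun i => a' i * (u i l : ℝ)) (fun i hi => by simp [a', hi]),
          hsum (fun i => a i * (u i l : ℝ)) (fun i hi => by simp [a, hi])]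
        have e2 : ∀ i : σ, a' i * (u i l : ℝ) = a i * (u i l : ℝ) + g i * (u i l : ℝ) := by
          intro i
          simp only [a, a', i.2, dif_pos, if_pos, Subtype.coe_eta]
          ring
        rw [Finset.sum_congr rfl fun i _ => e2 i, Finset.sum_add_distrib, e1, add_zero]
    obtain ⟨a0, -, ha0⟩ := hS.rep (fun l => ∑ i, a i * (u i l : ℝ))
    have h3 := congrFun ((ha0 _ h1).trans (ha0 _ h2).symm) i
    simp only [a, a', i.2, dif_pos, if_pos, Subtype.coe_eta] at h3
    exact hgi (by linarith)
  let B := Module.Basis.span hli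
  let g : Submodule.span ℝ (Set.range v) →ₗ[ℝ] ℝ := B.constr ℝ (fun i : σ => - d i)
  obtain ⟨f, hf⟩ := g.exists_extend
  refine ⟨fun l => f (Pi.single l 1), fun i hi => ?_⟩
  have h1 : pr u (fun l => f (Pi.single l 1)) i = f (v ⟨i, hi⟩) := by
    have e1 : v ⟨i, hi⟩ = ∑ l, (v ⟨i, hi⟩ l) • (Pi.single l (1 : ℝ) : Fin n → ℝ) := by
      funext l
      rw [Finset.sum_apply]
      simp [Pi.single_apply]
    conv_rhs => rw [e1]
    rw [map_sum, pr]
    exact Finset.sum_congr rfl fun l _ => by
      rw [map_smul, smul_eq_mul, mul_comm]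
  have h2 : f (v ⟨i, hi⟩) = g (B ⟨i, hi⟩) := by
    have e1 := LinearMap.congr_fun hf (B ⟨i, hi⟩)
    rw [← e1, LinearMap.comp_apply, Submodule.subtype_apply]
    congr 1
    exact congrArg Subtype.val (Module.Basis.span_apply hli ⟨i, hi⟩).symm
  rw [h1, h2, Module.Basis.constr_basis]
  ring

/-- A class of curves is zero if a class in the interior of the nef cone is zero on it. -/
theorem eq_zero_of_interior (hS : IsCompleteFan u S) {h : ι → ℝ} {c : W}
    (hH : ∀ σ ∈ S, (∀ τ ∈ S, σ ⊆ τ → τ = σ) → ∃ q : Fin n → ℝ, (∀ i ∈ σ, h i + pr u q i = 0) ∧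
      (∀ j, {j} ∈ S → j ∉ σ → 0 < h j + pr u q j) ∧ c + ∑ l, q l • N l ∈ interior C)
    {R : (ι → ℝ) × (W →L[ℝ] ℝ)} (hR : R ∈ NA u S C N) (h0 : deg R h c = 0) : R = 0 := by
  classical
  have key : ∀ (d : ι → ℝ) (δ : W), 0 ≤ deg R d δ := by
    intro d δ
    have hev : ∀ᶠ ε in 𝓝[>] (0 : ℝ), ∀ σ : Set ι, σ ∈ S → (∀ τ ∈ S, σ ⊆ τ → τ = σ) →
        ∃ q : Fin n → ℝ, (∀ i ∈ σ, (h i + ε * d i) + pr u q i = 0) ∧
          (∀ i, {i} ∈ S → 0 ≤ (h i + ε * d i) + pr u q i) ∧ (c + ε • δ) + ∑ l, q l • N l ∈ C := by
      rw [eventually_all]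
      intro σ
      by_cases hσ : σ ∈ S ∧ (∀ τ ∈ S, σ ⊆ τ → τ = σ)
      · obtain ⟨q, hq1, hq2, hq3⟩ := hH σ hσ.1 hσ.2
        obtain ⟨p, hp⟩ := exists_vertex hS hσ.1 d
        have hev1 : ∀ᶠ ε in 𝓝[>] (0 : ℝ), ∀ j, {j} ∈ S → j ∉ σ →
            0 < (h j + ε * d j) + pr u (q + ε • p) j := by
          rw [eventually_all]
          intro j
          by_cases hj : {j} ∈ S ∧ j ∉ σ
          · have h1 : Tendsto (fun ε : ℝ => (h j + ε * d j) + pr u (q + ε • p) j) (𝓝[>] 0)
                (𝓝 (h j + pr u q j)) := by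
              have e1 : (fun ε : ℝ => (h j + ε * d j) + pr u (q + ε • p) j)
                  = fun ε : ℝ => (h j + pr u q j) + ε * (d j + pr u p j) := by
                funext ε
                rw [pr_add, pr_smul]
                ring
              rw [e1]
              have e2 : Continuous fun ε : ℝ => (h j + pr u q j) + ε * (d j + pr u p j) := by
                fun_prop
              have e3 := (e2.tendsto 0).mono_left (nhdsWithin_le_nhds (s := Set.Ioi 0))
              simpa using e3
            filter_upwards [h1.eventually (lt_mem_nhds (hq2 j hj.1 hj.2))] with ε hε _ _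
            exact hε
          · exact Eventually.of_forall fun ε h1 h2 => absurd ⟨h1, h2⟩ hj
        have hev2 : ∀ᶠ ε in 𝓝[>] (0 : ℝ), (c + ε • δ) + ∑ l, (q + ε • p) l • N l ∈ interior C := by
          have e2 : Continuous fun ε : ℝ => (c + ε • δ) + ∑ l, (q + ε • p) l • N l := by
            simp only [Pi.add_apply, Pi.smul_apply, smul_eq_mul]
            fun_prop
          have e3 := (e2.tendsto 0).mono_left (nhdsWithin_le_nhds (s := Set.Ioi 0))
          refine e3.eventually ?_
          have e4 : (c + (0 : ℝ) • δ) + ∑ l, (q + (0 : ℝ) • p) l • N l = c + ∑ l, q l • N l := by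
            simp
          rw [e4]
          exact isOpen_interior.mem_nhds hq3
        filter_upwards [hev1, hev2] with ε h1 h2 _ _
        refine ⟨q + ε • p, fun i hi => ?_, fun i hi => ?_, interior_subset h2⟩
        · rw [pr_add, pr_smul]
          have e1 := hq1 i hi
          have e2 := hp i hi
          have e3 : h i + ε * d i + (pr u q i + ε * pr u p i)
              = (h i + pr u q i) + ε * (d i + pr u p i) := by ring
          rw [e3, e1, e2]
          ring
        · by_cases hiσ : i ∈ σ
          · rw [pr_add, pr_smul]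
            have e1 := hq1 i hiσ
            have e2 := hp i hiσ
            have e3 : h i + ε * d i + (pr u q i + ε * pr u p i)
                = (h i + pr u q i) + ε * (d i + pr u p i) := by ring
            rw [e3, e1, e2]
            simp
          · exact (h1 i hi hiσ).le
      · exact Eventually.of_forall fun ε h1 h2 => absurd ⟨h1, h2⟩ hσ
    obtain ⟨ε, hε, hε0⟩ := (hev.and self_mem_nhdsWithin).exists
    have hε0' : (0 : ℝ) < ε := hε0
    have hnef : IsNef u S C N (fun i => h i + ε * d i) (c + ε • δ) := by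
      intro σ hσ
      obtain ⟨τ, hτ1, hτ2⟩ := (Set.toFinite S).exists_le_maximal hσ
      obtain ⟨q, hq1, hq2, hq3⟩ := hε τ hτ2.prop fun ρ hρ hle => (hτ2.eq_of_le hρ hle).symm
      exact ⟨q, fun i hi => hq1 i (hτ1 hi), hq2, hq3⟩
    have h1 := hR.2.2 _ _ hnef
    have h2 : deg R (fun i => h i + ε * d i) (c + ε • δ) = deg R h c + ε * deg R d δ := by
      simp only [deg, mul_add, Finset.sum_add_distrib, map_add, map_smul, smul_eq_mul,
        Finset.mul_sum]
      have e1 : ∑ i, R.1 i * (ε * d i) = ∑ i, ε * (R.1 i * d i) :=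
        Finset.sum_congr rfl fun i _ => by ring
      rw [e1]
      ring
    rw [h2, h0, zero_add] at h1
    exact nonneg_of_mul_nonneg_right h1 hε0'
  have key2 : ∀ (d : ι → ℝ) (δ : W), deg R d δ = 0 := by
    intro d δ
    refine le_antisymm ?_ (key d δ)
    have h1 := key (fun i => - d i) (-δ)
    have h2 : deg R (fun i => - d i) (-δ) = - deg R d δ := by
      simp only [deg, mul_neg, Finset.sum_neg_distrib, map_neg]
      ring
    linarith
  refine Prod.ext ?_ ?_
  · funext i
    have h1 := key2 (Pi.single i 1) 0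
    simpa [deg, Pi.single_apply] using h1
  · ext x
    have h1 := key2 0 x
    simpa [deg] using h1

end Pool.Agent.U976.TF
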