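import Pool.Agent.U976.TF.B

/-!
# Programs on toric bundles
-/

set_option autoImplicit false

namespace Pool.Agent.U976.TF

open Pool.Agent.U976.LT Filter Topology

variable {ι : Type*} [Fintype ι] {n : ℕ} {u : ι → Fin n → ℤ} {S S' : Set (Set ι)}
variable {W : Type*} [NormedAddCommGroup W] [NormedSpace ℝ W] {C : Set W} {κ : W} {N : Fin n → W}
  {b : ι → ℝ} {α : W}

/-- The negative extremal rays of generalized log canonical pairs are vertical. -/
theorem vertical (hS : IsCompleteFan u S) (hadd : ∀ x ∈ C, ∀ y ∈ C, x + y ∈ C)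
    (hsmul : ∀ t : ℝ, 0 ≤ t → ∀ x ∈ C, t • x ∈ C) (hint : (interior C).Nonempty) (hκ : κ ∈ C)
    (hb : IsGenLC u S C N b α) {h : ι → ℝ} {c : W} {R : (ι → ℝ) × (W →L[ℝ] ℝ)}
    (hs : IsSupporting u S C N h c R) (hneg : deg R (fun i => b i - 1) (κ + α) < 0) : R.2 = 0 := by
  classical
  by_contra hψ
  by_cases hall : ∀ σ ∈ S, (∀ τ ∈ S, σ ⊆ τ → τ = σ) → ∃ q : Fin n → ℝ, (∀ i ∈ σ, h i + pr u q i = 0) ∧
      (∀ j, {j} ∈ S → j ∉ σ → 0 < h j + pr u q j) ∧ c + ∑ l, q l • N l ∈ interior C
  · exact hs.ne (eq_zero_of_interior hS hall hs.mem hs.zero)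
  push Not at hall
  obtain ⟨σ, hσ, hmax, hbad⟩ := hall
  obtain ⟨q, hq1, hq2, hq3⟩ := hs.nef σ hσ
  by_cases hj : ∀ j, {j} ∈ S → j ∉ σ → 0 < h j + pr u q j
  · -- a horizontal class
    obtain ⟨ψ, hψ0, hψC, hψx⟩ := exists_form hadd hsmul hint hq3 (hbad q hq1 hj)
    obtain ⟨a, ha, -⟩ := hS.rep (fun l => ψ (N l))
    have hmem := horiz_mem (N := N) hS hψC ha
    have haS : ∀ i, a i ≠ 0 → {i} ∈ S := fun i hi =>
      hS.face _ ha.2.1 _ (Set.singleton_subset_iff.2 hi)
    have h1 : deg ((fun i => - a i, ψ) : (ι → ℝ) × (W →L[ℝ] ℝ)) h c = 0 := by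
      refine le_antisymm ?_ (hmem.2.2 _ _ hs.nef)
      have e1 : 0 ≤ ∑ i, a i * h i + ∑ l, q l * ψ (N l) := by
        rw [rep_pair (w := fun l => ψ (N l)) ha.2.2, ← Finset.sum_add_distrib]
        refine Finset.sum_nonneg fun i _ => ?_
        rw [← mul_add]
        by_cases hi : a i = 0
        · rw [hi, zero_mul]
        · exact mul_nonneg (ha.1 i) (hq2 i (haS i hi))
      rw [map_sum_smul] at hψx
      simp only [deg, neg_mul, Finset.sum_neg_distrib]
      linarith
    obtain ⟨t, ht0, ht⟩ := hs.ray _ hmem h1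
    have ht1 : 0 < t := by
      rcases ht0.lt_or_eq with h | h
      · exact h
      · rw [← h, zero_smul] at ht
        exact absurd (congrArg Prod.snd ht) hψ0
    obtain ⟨p, -, hp2, hp3⟩ := hb _ a ha
    have e2 : deg ((fun i => - a i, ψ) : (ι → ℝ) × (W →L[ℝ] ℝ)) (fun i => b i - 1) (κ + α)
        = t * deg R (fun i => b i - 1) (κ + α) := by
      rw [ht]
      simp only [deg, Prod.smul_fst, Prod.smul_snd, Pi.smul_apply, smul_eq_mul,
        smul_apply, mul_add, Finset.mul_sum, mul_assoc]
    have e3 : 0 ≤ deg ((fun i => - a i, ψ) : (ι → ℝ) × (W →L[ℝ] ℝ)) (fun i => b i - 1) (κ + α) := by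
      have f1 := hψC _ hκ
      have f2 := hψC _ hp2
      rw [map_sum_smul] at f2
      have f3 := rep_pair (w := fun l => ψ (N l)) ha.2.2 p
      simp only [mul_add, Finset.sum_add_distrib] at hp3
      simp only [deg, neg_mul, Finset.sum_neg_distrib, map_add, mul_sub, mul_one,
        Finset.sum_sub_distrib]
      linarith
    have e4 := mul_neg_of_pos_of_neg ht1 hneg
    linarith
  · -- a vertical class
    push Not at hj
    obtain ⟨j, hjS, hjσ, hj0⟩ := hj
    let a' : ι → ℝ := fun i => if i = j ∨ i ∈ σ then 1 else 0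
    have hq2' : ∀ i, i = j ∨ i ∈ σ → h i + pr u q i = 0 := by
      rintro i (rfl | hi)
      · exact le_antisymm hj0 (hq2 _ hjS)
      · exact hq1 i hi
    obtain ⟨a, ha, -⟩ := hS.rep (fun l => ∑ i, a' i * (u i l : ℝ))
    have haS : ∀ i, a i ≠ 0 → {i} ∈ S := fun i hi =>
      hS.face _ ha.2.1 _ (Set.singleton_subset_iff.2 hi)
    have hmem := vert_mem (C := C) (N := N) (a' := a') hS ha (fun i => by
        simp only [a']
        split_ifs
        · exact zero_le_one
        · exact le_rfl) (fun i hi => by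
        have h1 : i = j ∨ i ∈ σ := by
          by_contra h
          exact hi (by simp only [a', if_neg h])
        rcases h1 with rfl | h1
        · exact hjS
        · exact hS.face _ hσ _ (Set.singleton_subset_iff.2 h1)) (fun l => rfl)
    have h1 : deg ((fun i => a' i - a i, 0) : (ι → ℝ) × (W →L[ℝ] ℝ)) h c = 0 := by
      refine le_antisymm ?_ (hmem.2.2 _ _ hs.nef)
      have e1 : 0 ≤ ∑ i, a i * h i + ∑ l, q l * (∑ i, a' i * (u i l : ℝ)) := by
        rw [rep_pair (w := fun l => ∑ i, a' i * (u i l : ℝ)) ha.2.2, ← Finset.sum_add_distrib]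
        refine Finset.sum_nonneg fun i _ => ?_
        rw [← mul_add]
        by_cases hi : a i = 0
        · rw [hi, zero_mul]
        · exact mul_nonneg (ha.1 i) (hq2 i (haS i hi))
      have e2 : ∑ i, a' i * h i + ∑ l, q l * (∑ i, a' i * (u i l : ℝ)) = 0 := by
        rw [rep_pair (u := u) (w := fun l => ∑ i, a' i * (u i l : ℝ)) (a := a') (fun l => rfl),
          ← Finset.sum_add_distrib]
        refine Finset.sum_eq_zero fun i _ => ?_
        rw [← mul_add]
        by_cases hi : i = j ∨ i ∈ σ
        · rw [hq2' i hi, mul_zero]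
        · simp only [a', if_neg hi, zero_mul]
      simp only [deg, zero_apply, add_zero, sub_mul, Finset.sum_sub_distrib]
      linarith
    obtain ⟨t, ht0, ht⟩ := hs.ray _ hmem h1
    have ht1 : t = 0 := by
      have e1 : (0 : W →L[ℝ] ℝ) = t • R.2 := congrArg Prod.snd ht
      rcases smul_eq_zero.1 e1.symm with h | h
      · exact h
      · exact absurd h hψ
    rw [ht1, zero_smul] at ht
    have h3 : ∀ i, a i = a' i := by
      intro i
      have := congrFun (congrArg Prod.fst ht) i
      simp only [Prod.fst_zero, Pi.zero_apply] at this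
      linarith
    have h4 : {i | a i ≠ 0} = insert j σ := by
      ext i
      rw [Set.mem_ofPred_eq, h3 i, Set.mem_insert_iff]
      simp only [a']
      split_ifs with h
      · simpa using h
      · simpa using h
    have h5 := hmax _ (h4 ▸ ha.2.1) (Set.subset_insert j σ)
    exact hjσ (h5 ▸ Set.mem_insert j σ)

/-- The discrepancies do not decrease in a step. -/
theorem step_le (hS : IsCompleteFan u S) {d : ι → ℝ} {δ : W} (hst : IsStep u S S' C N d δ)
    {w : Fin n → ℝ} {a a' : ι → ℝ} (ha : IsRep u S w a) (ha' : IsRep u S' w a') :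
    ∑ i, a' i * d i ≤ ∑ i, a i * d i ∧ (a' ≠ a → ∑ i, a' i * d i < ∑ i, a i * d i) := by
  obtain ⟨h, c, R, hs, hneg, -, hpull, -⟩ := hst.step
  have haS' : ∀ i, a' i ≠ 0 → {i} ∈ S := fun i hi =>
    hst.rays i (hst.fan.face _ ha'.2.1 _ (Set.singleton_subset_iff.2 hi))
  have hmem := vert_mem (C := C) (N := N) hS ha ha'.1 haS' ha'.2.2
  have h1 : deg ((fun i => a' i - a i, 0) : (ι → ℝ) × (W →L[ℝ] ℝ)) h c = 0 := by
    simp only [deg, zero_apply, add_zero, sub_mul, Finset.sum_sub_distrib]
    rw [hpull w a a' ha ha', sub_self]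
  obtain ⟨t, ht0, ht⟩ := hs.ray _ hmem h1
  have e2 : deg ((fun i => a' i - a i, 0) : (ι → ℝ) × (W →L[ℝ] ℝ)) d δ = t * deg R d δ := by
    rw [ht]
    simp only [deg, Prod.smul_fst, Prod.smul_snd, Pi.smul_apply, smul_eq_mul,
      smul_apply, mul_add, Finset.mul_sum, mul_assoc]
  simp only [deg, zero_apply, add_zero, sub_mul, Finset.sum_sub_distrib] at e2
  constructor
  · have e3 : t * deg R d δ ≤ 0 := mul_nonpos_of_nonneg_of_nonpos ht0 hneg.le
    simp only [deg] at e3
    linarith
  · intro hne
    have ht1 : 0 < t := by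
      rcases ht0.lt_or_eq with h | h
      · exact h
      · exfalso
        apply hne
        rw [← h, zero_smul] at ht
        funext i
        have := congrFun (congrArg Prod.fst ht) i
        simp only [Prod.fst_zero, Pi.zero_apply] at this
        linarith
    have e3 : t * deg R d δ < 0 := mul_neg_of_pos_of_neg ht1 hneg
    simp only [deg] at e3
    linarith

/-- The fan changes in a step. -/
theorem step_ne {d : ι → ℝ} {δ : W} (hst : IsStep u S S' C N d δ) : S' ≠ S := by
  rintro rfl
  obtain ⟨h, c, R, hs, hneg, -, -, hpos⟩ := hst.step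
  have := hpos R hs.mem hs.ne hs.zero
  linarith

/-- Different fans have different representations of some vector. -/
theorem exists_rep_ne (hS : IsCompleteFan u S) (hS' : IsCompleteFan u S') (hne : S' ≠ S) :
    ∃ (w : Fin n → ℝ) (a a' : ι → ℝ), IsRep u S w a ∧ IsRep u S' w a' ∧ a' ≠ a := by
  classical
  by_contra hcon
  push Not at hcon
  have key : ∀ {T T' : Set (Set ι)}, IsCompleteFan u T → IsCompleteFan u T' →
      (∀ (w : Fin n → ℝ) (a a' : ι → ℝ), IsRep u T w a → IsRep u T' w a' → a' = a) → T ⊆ T' := by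
    intro T T' hT hT' h σ hσ
    let a : ι → ℝ := fun i => if i ∈ σ then 1 else 0
    have hset : {i | a i ≠ 0} = σ := by
      ext i
      simp [a]
    have ha : IsRep u T (fun l => ∑ i, a i * (u i l : ℝ)) a := by
      refine ⟨fun i => ?_, by rw [hset]; exact hσ, fun l => rfl⟩
      simp only [a]
      split_ifs
      · exact zero_le_one
      · exact le_rfl
    obtain ⟨a', ha', -⟩ := hT'.rep (fun l => ∑ i, a i * (u i l : ℝ))
    have h1 := h _ _ _ ha ha'
    rw [h1] at ha'
    rw [← hset]
    exact ha'.2.1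
  exact hne (Set.Subset.antisymm (key hS' hS fun w a a' h1 h2 => (hcon w a' a h2 h1).symm)
    (key hS hS' hcon))

/-- The property of generalized log canonical pairs is preserved by steps. -/
theorem genLC_step (hS : IsCompleteFan u S) (hst : IsStep u S S' C N (fun i => b i - 1) (κ + α))
    (hb : IsGenLC u S C N b α) : IsGenLC u S' C N b α := by
  intro w a' ha'
  obtain ⟨a, ha, -⟩ := hS.rep w
  obtain ⟨q, hq1, hq2, hq3⟩ := hb w a ha
  refine ⟨q, hq1, hq2, ?_⟩
  have h1 := (step_le hS hst ha ha').1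
  have e1 := rep_pair ha.2.2 q
  have e2 := rep_pair ha'.2.2 q
  simp only [mul_add, Finset.sum_add_distrib, mul_sub, mul_one, Finset.sum_sub_distrib] at hq3 h1 ⊢
  linarith

/-- Torus invariant boundaries together with nef classes of the base. -/
theorem genLC_toric (hb0 : ∀ i, 0 ≤ b i) (hb1 : ∀ i, b i ≤ 1) (hα : α ∈ C) :
    IsGenLC u S C N b α := by
  intro w a ha
  refine ⟨0, fun i => ?_, by simpa using hα, Finset.sum_le_sum fun i _ => ?_⟩
  · simpa [pr] using hb0 i
  · have h1 : pr u (0 : Fin n → ℝ) i = 0 := by simp [pr]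
    rw [h1, add_zero]
    exact mul_le_of_le_one_right (ha.1 i) (hb1 i)

/-- Every program is finite, with a bound which depends only on the rays. -/
theorem programs (hS : IsCompleteFan u S) (hb : IsGenLC u S C N b α) {m : ℕ} {T : ℕ → Set (Set ι)}
    (h0 : T 0 = S) (hT : ∀ j < m, IsStep u (T j) (T (j + 1)) C N (fun i => b i - 1) (κ + α)) :
    m < Nat.card {S' : Set (Set ι) // IsCompleteFan u S'} ∧ IsCompleteFan u (T m) ∧
      IsGenLC u (T m) C N b α := by
  classical
  have hfan : ∀ j ≤ m, IsCompleteFan u (T j) := by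
    intro j hj
    rcases j with _ | j
    · rw [h0]
      exact hS
    · exact (hT j (by omega)).fan
  have hlc : ∀ j ≤ m, IsGenLC u (T j) C N b α := by
    intro j
    induction j with
    | zero =>
      intro _
      rw [h0]
      exact hb
    | succ j ih =>
      intro hj
      exact genLC_step (hfan j (by omega)) (hT j (by omega)) (ih (by omega))
  refine ⟨?_, hfan m le_rfl, hlc m le_rfl⟩
  -- the support functions
  have hmono : ∀ j k, j ≤ k → k ≤ m → ∀ (w : Fin n → ℝ) (a a' : ι → ℝ), IsRep u (T j) w a →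
      IsRep u (T k) w a' → ∑ i, a' i * (b i - 1) ≤ ∑ i, a i * (b i - 1) := by
    intro j k hjk
    induction k, hjk using Nat.le_induction with
    | base =>
      intro hk w a a' ha ha'
      rw [((hfan j hk).rep w).unique ha ha']
    | succ k hjk ih =>
      intro hk w a a' ha ha'
      obtain ⟨a'', ha'', -⟩ := (hfan k (by omega)).rep w
      exact (step_le (hfan k (by omega)) (hT k (by omega)) ha'' ha').1.trans
        (ih (by omega) w a a'' ha ha'')
  let F : Fin (m + 1) → {S' : Set (Set ι) // IsCompleteFan u S'} :=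
    fun j => ⟨T j, hfan j (by omega)⟩
  have hlt : ∀ j k : ℕ, j < k → k ≤ m → T j ≠ T k := by
    intro j k hjk hk heq
    obtain ⟨w, a, a', ha, ha', hne⟩ := exists_rep_ne (hfan j (by omega)) (hfan (j + 1) (by omega))
      (step_ne (hT j (by omega)))
    have h1 := (step_le (hfan j (by omega)) (hT j (by omega)) ha ha').2 hne
    have h2 := hmono (j + 1) k (by omega) hk w a' a ha' (heq ▸ ha)
    exact absurd (h1.trans_le (le_refl _)) (not_lt.2 h2)
  have hinj : Function.Injective F := by
    intro j k hjk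
    have h1 : T j = T k := congrArg Subtype.val hjk
    by_contra hne
    rcases lt_or_gt_of_ne (fun h => hne (Fin.ext h) : (j : ℕ) ≠ k) with h | h
    · exact hlt j k h (by omega) h1
    · exact hlt k j h (by omega) h1.symm
  have h2 := Nat.card_le_card_of_injective F hinj
  rw [Nat.card_eq_fintype_card, Fintype.card_fin] at h2
  omega

end Pool.Agent.U976.TF
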