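import Pool.Agent.U976.LT.Defs
import Mathlib.Topology.Algebra.Module.Basic

/-!
# Classes of curves on toric bundles, and the steps of minimal model programs

Let `X` be a compact Kähler manifold (or a projective variety) with the space `W` of classes
(`H^{1,1}(X, ℝ)`, or `N^1(X)`), and `C ⊆ W` the closed convex cone of the nef classes. For the toric bundle
`Y → X` with the fan `S`, the classes on `Y` are the pairs `(d, α)`, as in `Pool.Agent.U976.LT.Defs`. The
classes of curves (of currents of bidimension `(1, 1)`) on `Y` are the linear forms on the space of these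
classes. Such a form is given by a pair `R = (φ, ψ)`: `φ i` is the degree of `D_i`, and the linear form `ψ` on
`W` is the pushforward of the class to `X`.
-/

set_option autoImplicit false

namespace Pool.Agent.U976.TF

open Pool.Agent.U976.LT

variable {ι : Type*} [Fintype ι] {n : ℕ} {W : Type*} [NormedAddCommGroup W] [NormedSpace ℝ W]

/-- The degree of the class `(d, α)` on the class `R = (φ, ψ)` of curves. -/
def deg (R : (ι → ℝ) × (W →L[ℝ] ℝ)) (d : ι → ℝ) (α : W) : ℝ := ∑ i, R.1 i * d i + R.2 α

/-- The closed cone `NA(Y)` of curves of the toric bundle with the fan `S`: the linear forms on the space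
of classes on `Y` (the degree is well defined, and `φ i = 0` if `u i` is not a ray of the fan) which are
nonnegative on the nef classes. -/
def NA (u : ι → Fin n → ℤ) (S : Set (Set ι)) (C : Set W) (N : Fin n → W) :
    Set ((ι → ℝ) × (W →L[ℝ] ℝ)) :=
  {R | (∀ l, ∑ i, R.1 i * (u i l : ℝ) + R.2 (N l) = 0) ∧ (∀ i, {i} ∉ S → R.1 i = 0) ∧
    ∀ (d : ι → ℝ) (α : W), IsNef u S C N d α → 0 ≤ deg R d α}

/-- `(h, c)` is a nef supporting class of the ray of `R ≠ 0` in the cone `NA(Y)`: it is nef, and it is zero
exactly on this ray. -/
structure IsSupporting (u : ι → Fin n → ℤ) (S : Set (Set ι)) (C : Set W) (N : Fin n → W)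
    (h : ι → ℝ) (c : W) (R : (ι → ℝ) × (W →L[ℝ] ℝ)) : Prop where
  nef : IsNef u S C N h c
  mem : R ∈ NA u S C N
  ne : R ≠ 0
  zero : deg R h c = 0
  ray : ∀ R' ∈ NA u S C N, deg R' h c = 0 → ∃ t : ℝ, 0 ≤ t ∧ R' = t • R

/-- `Y ⇢ Y'` is a step (a flip or a divisorial contraction) of a minimal model program for the class
`(d, δ)`, where `Y` and `Y'` are the toric bundles with the fans `S` and `S'`: there are an extremal ray
of `NA(Y)`, generated by `R`, with negative degree of `(d, δ)`, and a nef supporting class `(h, c)` of the ray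
(the pullback to `Y` of a Kähler class of `Z`, where `Y → Z` is the contraction of the ray), such that
* no divisor is contracted by `Y' ⇢ Y`: the rays of `S'` are rays of `S`;
* `(h, c)` has the same pullback from `Y` and from `Y'` to a common resolution (its coefficient at the
  prime divisor given by `w` is `∑ a i h i` if `w = ∑ a i u i` in a cone of the fan), and it is nef on `Y'`,
  so that `Y'` has a morphism to `Z`;
* the class `(d, δ)` is relatively Kähler for the morphism `Y' → Z`: it is positive on all nonzero elements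
  of `NA(Y')` on which `(h, c)` is zero. (There are none if `Y → Z` is divisorial and `Y' = Z`.) -/
structure IsStep (u : ι → Fin n → ℤ) (S S' : Set (Set ι)) (C : Set W) (N : Fin n → W)
    (d : ι → ℝ) (δ : W) : Prop where
  fan : IsCompleteFan u S'
  rays : ∀ i, {i} ∈ S' → {i} ∈ S
  step : ∃ (h : ι → ℝ) (c : W) (R : (ι → ℝ) × (W →L[ℝ] ℝ)), IsSupporting u S C N h c R ∧
    deg R d δ < 0 ∧ IsNef u S' C N h c ∧
    (∀ (w : Fin n → ℝ) (a a' : ι → ℝ), IsRep u S w a → IsRep u S' w a' →
      ∑ i, a i * h i = ∑ i, a' i * h i) ∧
    ∀ R' ∈ NA u S' C N, R' ≠ 0 → deg R' h c = 0 → 0 < deg R' d δ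

end Pool.Agent.U976.TF
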